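import Pool.Agent.Helper40.OL.Spec

/-!
# Part FILT of the blueprint OL (MP_036a22_al): exactness of the finite stages
-/

set_option autoImplicit false

namespace Pool.Agent.Helper92.OL

open Pool.Agent.Helper40.OL

variable {G : Type} [Group G]

/-- A linear map into chains sends chains supported on `T` to chains supported on `T'` if it does so for
basis elements. -/
lemma map_sup {X Y : Type} (φ : (X →₀ ℤ) →ₗ[ℤ] (Y →₀ ℤ)) (T : Set X) (T' : Set Y)
    (h : ∀ x ∈ T, φ (Finsupp.single x 1) ∈ Sup T') : ∀ z ∈ Sup T, φ z ∈ Sup T' := by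
  intro z hz
  have e : z = z.sum fun x a => Finsupp.single x a := (Finsupp.sum_single z).symm
  rw [e, Finsupp.sum, map_sum]
  refine Submodule.sum_mem _ fun x hx => ?_
  have hx' : x ∈ T := (Finsupp.mem_supported ℤ z).1 hz hx
  have e2 : Finsupp.single x (z x) = z x • Finsupp.single x (1 : ℤ) := by
    rw [Finsupp.smul_single, smul_eq_mul, mul_one]
  rw [e2, map_smul]
  exact Submodule.smul_mem _ _ (h x hx')

lemma sup_mono {X : Type} {T T' : Set X} (h : T ⊆ T') : (Sup T : Submodule ℤ (X →₀ ℤ)) ≤ Sup T' :=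
  Finsupp.supported_mono h

lemma sup_inter {X : Type} {T T' : Set X} (h : ∀ x, x ∈ T → x ∉ T') (z : X →₀ ℤ) (hz : z ∈ Sup T)
    (hz' : z ∈ Sup T') : z = 0 := by
  by_contra h0
  obtain ⟨x, hx⟩ := Finsupp.support_nonempty_iff.2 h0
  exact h x ((Finsupp.mem_supported ℤ z).1 hz hx) ((Finsupp.mem_supported ℤ z).1 hz' hx)

/-- Reduction of the top level by one. -/
lemma lower_one (S : SplitSys G) (hBD : S_BD) (j M : ℕ) (hE : DescEx S (M + 1) (j + 1))
    (z w : Cb S →₀ ℤ) (hz : z ∈ Sup {c : Cb S | ∃ N ≤ M, Ok S j N c})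
    (hw : w ∈ Sup {c : Cb S | ∃ N ≤ M + 1, Ok S (j + 1) N c}) (hwz : bd S w = z) :
    ∃ w' ∈ Sup {c : Cb S | ∃ N ≤ M, Ok S (j + 1) N c}, bd S w' = z := by
  classical
  obtain ⟨hb, hf, hfs, hbf, hbb, -, -⟩ := hBD G S
  -- facts on `bd` and `fb` on supported chains
  have hfb : ∀ (k N : ℕ), ∀ u ∈ Sup {c : Cb S | Ok S (k + 1) N c}, fb S u ∈ Sup {c : Cb S | Ok S k N c} := by
    intro k N
    refine map_sup _ _ _ fun c hc => ?_
    rw [hf]
    exact hfs k N c hc
  have hlow : ∀ (k N : ℕ), ∀ u ∈ Sup {c : Cb S | Ok S (k + 1) N c},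
      (bd S - fb S) u ∈ Sup {c : Cb S | ∃ N', N' + 1 = N ∧ Ok S k N' c} := by
    intro k N
    refine map_sup _ _ _ fun c hc => ?_
    rw [LinearMap.sub_apply, hb, hf]
    exact hbf k N c hc
  have hbd : ∀ (k L : ℕ), ∀ u ∈ Sup {c : Cb S | ∃ N ≤ L, Ok S (k + 1) N c},
      bd S u ∈ Sup {c : Cb S | ∃ N ≤ L, Ok S k N c} := by
    intro k L
    refine map_sup _ _ _ fun c hc => ?_
    obtain ⟨N, hN, hc⟩ := hc
    rw [hb]
    have e : bdRec S c.1 c.2 = fbRec S c.1 c.2 + (bdRec S c.1 c.2 - fbRec S c.1 c.2) := by abel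
    rw [e]
    refine Submodule.add_mem _ ?_ ?_
    · refine sup_mono ?_ (hfs k N c hc)
      intro c' hc'
      exact ⟨N, hN, hc'⟩
    · refine sup_mono ?_ (hbf k N c hc)
      rintro c' ⟨N', h1, h2⟩
      exact ⟨N', by omega, h2⟩
  have hbdbd : ∀ (k N : ℕ), ∀ u ∈ Sup {c : Cb S | Ok S k N c}, bd S (bd S u) = 0 := by
    intro k N u hu
    have := map_sup ((bd S).comp (bd S)) {c : Cb S | Ok S k N c} ∅ (fun c hc => by
      rw [LinearMap.comp_apply, hb, hbb k N c hc]
      exact Submodule.zero_mem _) u hu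
    rw [LinearMap.comp_apply] at this
    exact sup_inter (T := ∅) (T' := ∅) (fun x hx => absurd hx (Set.notMem_empty x)) _ this this
  -- decomposition of `w`
  let p : Cb S → Prop := fun c => c.1.1 + (j + 1) = M + 1
  have hdec : Finsupp.filter p w + Finsupp.filter (fun c => ¬ p c) w = w := Finsupp.filter_add_filter_not w p
  have h1 : Finsupp.filter p w ∈ Sup {c : Cb S | Ok S (j + 1) (M + 1) c} := by
    rw [Finsupp.mem_supported]
    intro c hc
    rw [Finset.mem_coe, Finsupp.support_filter, Finset.mem_filter] at hc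
    obtain ⟨N, hN, hc'⟩ := (Finsupp.mem_supported ℤ w).1 hw hc.1
    have : N = M + 1 := by rw [← hc'.2.2.2]; exact hc.2
    subst this
    exact hc'
  have h2 : Finsupp.filter (fun c => ¬ p c) w ∈ Sup {c : Cb S | ∃ N ≤ M, Ok S (j + 1) N c} := by
    rw [Finsupp.mem_supported]
    intro c hc
    rw [Finset.mem_coe, Finsupp.support_filter, Finset.mem_filter] at hc
    obtain ⟨N, hN, hc'⟩ := (Finsupp.mem_supported ℤ w).1 hw hc.1
    refine ⟨N, ?_, hc'⟩
    have h3 : ¬ (c.1.1 + (j + 1) = M + 1) := hc.2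
    have h4 : c.1.1 + (j + 1) = N := hc'.2.2.2
    omega
  generalize Finsupp.filter p w = w₁ at hdec h1
  generalize Finsupp.filter (fun c => ¬ p c) w = w₂ at hdec h2
  have hfw : fb S w₁ = 0 := by
    have e : fb S w₁ = z - bd S w₂ - (bd S - fb S) w₁ := by
      rw [← hwz, ← hdec, map_add, LinearMap.sub_apply]; abel
    refine sup_inter (T := {c : Cb S | Ok S j (M + 1) c}) (T' := {c : Cb S | ∃ N ≤ M, Ok S j N c}) ?_ _
      (hfb j (M + 1) w₁ h1) ?_
    · rintro c hc ⟨N, hN, hc'⟩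
      have h3 := hc.2.2.2
      have h4 := hc'.2.2.2
      omega
    · rw [e]
      refine Submodule.sub_mem _ (Submodule.sub_mem _ hz (hbd j M w₂ h2)) ?_
      refine sup_mono ?_ (hlow j (M + 1) w₁ h1)
      rintro c' ⟨N', h3, h4⟩
      exact ⟨N', by omega, h4⟩
  obtain ⟨u, hu, hfu⟩ := hE w₁ h1 hfw
  refine ⟨w - bd S u, ?_, ?_⟩
  · have e : w - bd S u = w₂ - (bd S - fb S) u := by
      rw [← hdec, LinearMap.sub_apply, hfu]; abel
    rw [e]
    refine Submodule.sub_mem _ h2 ?_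
    refine sup_mono ?_ (hlow (j + 1) (M + 1) u hu)
    rintro c' ⟨N', h3, h4⟩
    exact ⟨N', by omega, h4⟩
  · rw [map_sub, hwz, hbdbd _ _ u hu, sub_zero]

theorem filt_thm (hEXD : S_EXD) (hBD : S_BD) : S_FILT := by
  intro G _ S hA2 hA3 hD k N₀ hDesc
  refine ⟨?_, ?_⟩
  · intro j hj z hz hbz hsum
    obtain ⟨w, hw, hwz⟩ := hEXD G S hA2 hA3 hD j z
      (sup_mono (fun c hc => by obtain ⟨N, -, h⟩ := hc; exact ⟨N, h⟩) hz) hbz hsum
    -- bound the level
    have key : ∀ (m : ℕ) (w : Cb S →₀ ℤ), w ∈ Sup {c : Cb S | ∃ N ≤ N₀ + m, Ok S (j + 1) N c} →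
        bd S w = z → ∃ w' ∈ Sup {c : Cb S | ∃ N ≤ N₀, Ok S (j + 1) N c}, bd S w' = z := by
      intro m
      induction m with
      | zero => intro w hw hwz; exact ⟨w, hw, hwz⟩
      | succ m ih =>
        intro w hw hwz
        obtain ⟨w', hw', hwz'⟩ := lower_one S hBD j (N₀ + m) (hDesc _ (by omega) _ hj) z w
          (sup_mono (fun c hc => by obtain ⟨N, h1, h⟩ := hc; exact ⟨N, by omega, h⟩) hz) hw hwz
        exact ih w' hw' hwz'
    refine key (w.support.sup fun c => c.1.1 + (j + 1)) w ?_ hwz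
    rw [Finsupp.mem_supported]
    intro c hc
    obtain ⟨N, hN⟩ := (Finsupp.mem_supported ℤ w).1 hw hc
    refine ⟨N, ?_, hN⟩
    have h1 : c.1.1 + (j + 1) ≤ w.support.sup fun c => c.1.1 + (j + 1) :=
      Finset.le_sup (f := fun c : Cb S => c.1.1 + (j + 1)) hc
    have h2 := hN.2.2.2
    omega
  · rintro ⟨x⟩
    obtain ⟨hb, hf, -, -, -, -, -⟩ := hBD G S
    have key : ∀ (m : ℕ) (x : Vt S), x.1 ≤ N₀ + m → ∃ x : Vt S, x.1 ≤ N₀ := by
      intro m
      induction m with
      | zero => intro x hx; exact ⟨x, hx⟩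
      | succ m ih =>
        intro x hx
        by_cases h0 : x.1 ≤ N₀ + m
        · exact ih x h0
        have hx' : x.1 = N₀ + m + 1 := by omega
        have h1 : Finsupp.single ((x, []) : Cb S) (1 : ℤ) ∈ Sup {c : Cb S | Ok S 0 (N₀ + m + 1) c} := by
          refine Finsupp.single_mem_supported ℤ _ ?_
          refine ⟨List.Pairwise.nil, by simp, rfl, by simpa using hx'⟩
        obtain ⟨w, hw, hfw⟩ := hDesc (N₀ + m + 1) (by omega) 0 (Nat.zero_le _) _ h1 (by
          rw [hf]; rfl)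
        have hw0 : w ≠ 0 := by
          rintro rfl
          rw [map_zero] at hfw
          have := DFunLike.congr_fun hfw ((x, []) : Cb S)
          simp at this
        obtain ⟨c, hc⟩ := Finsupp.support_nonempty_iff.2 hw0
        have h3 := ((Finsupp.mem_supported ℤ w).1 hw hc).2.2.2
        exact ih c.1 (by omega)
    exact key x.1 x (by omega)

end Pool.Agent.Helper92.OL
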